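import Pool.Agent.Helper54.SL.Defs
import Pool.Agent.Helper54.PW.Final

set_option autoImplicit false
open scoped Pointwise
open Pool.Agent.Helper54.PW

namespace Pool.Agent.Helper54.SL

private theorem imm_val_one {F : Type} [Field F] (A : ValuationSubring F) {x : F}
    (hx : x - 1 ∈ A.nonunits) : A.valuation x = 1 := by
  rw [ValuationSubring.mem_nonunits_iff] at hx
  have h1 : x = 1 + (x - 1) := by ring
  rw [h1, A.valuation.map_add_eq_of_lt_left]
  · exact map_one _
  · rw [map_one]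
    exact hx

theorem immediate {k M F : Type} [Field k] [IsAlgClosed k] [Field M] [Field F] [Algebra k M]
    [Algebra k F] [Algebra M F] [IsScalarTower k M F] [FiniteDimensional M F] [IsGalois M F]
    (hF : FF k F) (A : ValuationSubring F) (hA : IsPlace k A) (f : F) (hf : f ≠ 0)
    (hfix : ∀ σ : F ≃ₐ[M] F, σ • A = A → σ f = f) :
    ∃ g : M, g ≠ 0 ∧ A.valuation f = A.valuation (algebraMap M F g) := by
  classical
  have hwa : WA k F := fun ι _ B hB hinj i₀ Y => weak_approx hF B hB hinj i₀ Y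
  obtain ⟨θ, hθ, hθ1, hθ2⟩ := exists_theta (M := M) hwa A hA {(f - 1) * f⁻¹, f - 1}
  set g : F := 1 + θ * (f - 1) with hg
  have hgfix : ∀ σ : F ≃ₐ[M] F, σ • A = A → σ g = g := by
    intro σ hσ
    rw [hg, map_add, map_mul, map_sub, map_one, hθ σ hσ, hfix σ hσ]
  have hgA : A.valuation g = A.valuation f := by
    have h1 : g = f * (1 + (θ - 1) * ((f - 1) * f⁻¹)) := by
      rw [hg]
      field_simp
      ring
    have h2 : A.valuation (1 + (θ - 1) * ((f - 1) * f⁻¹)) = 1 := by
      apply imm_val_one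
      rw [add_sub_cancel_left]
      exact hθ1 _ (by simp)
    rw [h1, map_mul, h2, mul_one]
  have hg1 : ∀ σ : F ≃ₐ[M] F, σ • A ≠ A → A.valuation (σ g) = 1 := by
    intro σ hσ
    apply imm_val_one
    have hσ' : σ⁻¹ • A ≠ A := by
      intro h
      apply hσ
      rw [inv_smul_eq_iff] at h
      exact h.symm
    have h1 := hθ2 (f - 1) (by simp) σ⁻¹ hσ'
    rw [mem_nonunits_smul, inv_inv] at h1
    have h2 : σ g - 1 = σ (θ * (f - 1)) := by
      rw [hg, map_add, map_one, add_sub_cancel_left]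
    rw [h2]
    exact h1
  -- the product over the cosets
  let D : Subgroup (F ≃ₐ[M] F) := MulAction.stabilizer (F ≃ₐ[M] F) A
  have hD : ∀ σ τ : F ≃ₐ[M] F, (QuotientGroup.mk σ : (F ≃ₐ[M] F) ⧸ D) = QuotientGroup.mk τ →
      σ g = τ g := by
    intro σ τ h
    rw [QuotientGroup.eq] at h
    have h1 := hgfix _ (MulAction.mem_stabilizer_iff.1 h)
    have h2 : τ g = σ ((σ⁻¹ * τ) g) := by
      show τ g = σ (σ⁻¹ (τ g))
      exact (σ.apply_symm_apply (τ g)).symm
    rw [h2, h1]
  have : Finite (F ≃ₐ[M] F) := inferInstance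
  have : Fintype ((F ≃ₐ[M] F) ⧸ D) := Fintype.ofFinite _
  set h : F := ∏ q : (F ≃ₐ[M] F) ⧸ D, q.out g with hh
  have hfixh : ∀ σ : F ≃ₐ[M] F, σ h = h := by
    intro σ
    rw [hh, map_prod]
    apply Fintype.prod_equiv (MulAction.toPerm σ)
    intro q
    show (σ * q.out) g = ((MulAction.toPerm σ) q).out g
    apply hD
    rw [QuotientGroup.out_eq']
    show (QuotientGroup.mk (σ * q.out) : (F ≃ₐ[M] F) ⧸ D) = σ • q
    conv_rhs => rw [← QuotientGroup.out_eq' q]
    rfl
  have hrange : h ∈ Set.range (algebraMap M F) :=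
    (IsGalois.mem_range_algebraMap_iff_fixed h).2 hfixh
  obtain ⟨m, hm⟩ := hrange
  have hval : A.valuation h = A.valuation f := by
    rw [hh, map_prod, Finset.prod_eq_single (QuotientGroup.mk 1 : (F ≃ₐ[M] F) ⧸ D)]
    · rw [← hgA]
      have h1 := hD (QuotientGroup.mk 1 : (F ≃ₐ[M] F) ⧸ D).out 1 (QuotientGroup.out_eq' _)
      rw [h1]
      rfl
    · intro q _ hq
      apply hg1
      intro h1
      apply hq
      rw [← QuotientGroup.out_eq' q, QuotientGroup.eq]
      rw [mul_one]
      exact D.inv_mem (MulAction.mem_stabilizer_iff.2 h1)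
    · intro hne
      exact absurd (Finset.mem_univ _) hne
  refine ⟨m, ?_, ?_⟩
  · rintro rfl
    rw [← hm, map_zero, map_zero] at hval
    exact hf ((map_eq_zero _).1 hval.symm)
  · rw [hm, hval]

end Pool.Agent.Helper54.SL
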