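import Pool.Agent.Helper54.SL.Defs

set_option autoImplicit false

namespace Pool.Agent.Helper54.SL

open Matrix

/-- the action of a subgroup of `SL_2` on column vectors -/
private def vecAct {𝔽 : Type} [Field 𝔽] (P : Subgroup (Matrix.SpecialLinearGroup (Fin 2) 𝔽)) :
    MulAction P (Fin 2 → 𝔽) where
  smul h v := h.1.1 *ᵥ v
  one_smul v := by
    show (1 : Matrix (Fin 2) (Fin 2) 𝔽) *ᵥ v = v
    exact Matrix.one_mulVec v
  mul_smul g h v := by
    show (g.1.1 * h.1.1) *ᵥ v = g.1.1 *ᵥ (h.1.1 *ᵥ v)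
    rw [Matrix.mulVec_mulVec]

/-- a `p`-subgroup of `SL_2` fixes a nonzero vector -/
private theorem exists_fixed_vec {p n : ℕ} [Fact p.Prime] (hn : 0 < n) {𝔽 : Type} [Field 𝔽]
    [Fintype 𝔽] (h𝔽 : Fintype.card 𝔽 = p ^ n)
    (P : Subgroup (Matrix.SpecialLinearGroup (Fin 2) 𝔽)) (hP : IsPGroup p P) :
    ∃ v : Fin 2 → 𝔽, v ≠ 0 ∧ ∀ h ∈ P, h.1 *ᵥ v = v := by
  letI := vecAct P
  have hcard : p ∣ Nat.card (Fin 2 → 𝔽) := by
    rw [Nat.card_fun, Nat.card_eq_fintype_card, h𝔽, ← pow_mul]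
    apply dvd_pow_self
    simp
    omega
  have h0 : (0 : Fin 2 → 𝔽) ∈ MulAction.fixedPoints P (Fin 2 → 𝔽) := by
    intro h
    show h.1.1 *ᵥ (0 : Fin 2 → 𝔽) = 0
    exact Matrix.mulVec_zero _
  obtain ⟨b, hb, hb0⟩ := hP.exists_fixed_point_of_prime_dvd_card_of_fixed_point
    (Fin 2 → 𝔽) hcard h0
  exact ⟨b, fun h => hb0 h.symm, fun h hh => hb ⟨h, hh⟩⟩

/-- a nonzero vector can be moved to the first basis vector -/
private theorem exists_move {𝔽 : Type} [Field 𝔽] (v : Fin 2 → 𝔽) (hv : v ≠ 0) :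
    ∃ g : Matrix.SpecialLinearGroup (Fin 2) 𝔽, g.1 *ᵥ v = ![1, 0] := by
  by_cases h0 : v 0 = 0
  · have h1 : v 1 ≠ 0 := by
      intro h1
      apply hv
      ext i
      fin_cases i
      · exact h0
      · exact h1
    refine ⟨⟨!![0, (v 1)⁻¹; -(v 1), 0], ?_⟩, ?_⟩
    · rw [Matrix.det_fin_two_of]
      field_simp
      ring
    · ext i
      fin_cases i
      · simp [Matrix.mulVec, dotProduct, Fin.sum_univ_two, h1]
      · simp [Matrix.mulVec, dotProduct, Fin.sum_univ_two, h0]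
  · refine ⟨⟨!![(v 0)⁻¹, 0; -(v 1), v 0], ?_⟩, ?_⟩
    · rw [Matrix.det_fin_two_of]
      field_simp
      ring
    · ext i
      fin_cases i
      · simp [Matrix.mulVec, dotProduct, Fin.sum_univ_two, h0]
      · simp [Matrix.mulVec, dotProduct, Fin.sum_univ_two]
        ring

/-- the subgroup of upper unitriangular matrices with entry in `A₀` -/
theorem exists_conj_unip {p n : ℕ} [Fact p.Prime] (hn : 0 < n) {𝔽 : Type} [Field 𝔽] [Fintype 𝔽]
    (h𝔽 : Fintype.card 𝔽 = p ^ n) (P : Subgroup (Matrix.SpecialLinearGroup (Fin 2) 𝔽))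
    (hP : IsPGroup p P) (hP1 : P ≠ ⊥) :
    ∃ (g : Matrix.SpecialLinearGroup (Fin 2) 𝔽) (A₀ : AddSubgroup 𝔽), A₀ ≠ ⊥ ∧
      ∀ h : Matrix.SpecialLinearGroup (Fin 2) 𝔽, h ∈ P ↔ ∃ a ∈ A₀, (g * h * g⁻¹).1 = !![1, a; 0, 1] := by
  obtain ⟨v, hv0, hv⟩ := exists_fixed_vec hn h𝔽 P hP
  obtain ⟨g, hg⟩ := exists_move v hv0
  have key : ∀ h ∈ P, ∃ a : 𝔽, (g * h * g⁻¹).1 = !![1, a; 0, 1] := by
    intro h hh
    have h1 : (g * h * g⁻¹).1 *ᵥ ![1, 0] = ![1, 0] := by
      rw [← hg]
      have h2 : (g * h * g⁻¹).1 *ᵥ (g.1 *ᵥ v) = ((g * h * g⁻¹) * g).1 *ᵥ v := by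
        rw [Matrix.mulVec_mulVec]
        rfl
      rw [h2, inv_mul_cancel_right]
      show (g.1 * h.1) *ᵥ v = g.1 *ᵥ v
      rw [← Matrix.mulVec_mulVec, hv h hh]
    generalize hM : g * h * g⁻¹ = M at h1
    have h00 : M.1 0 0 = 1 := by
      have := congrFun h1 0
      simpa [Matrix.mulVec, dotProduct, Fin.sum_univ_two] using this
    have h10 : M.1 1 0 = 0 := by
      have := congrFun h1 1
      simpa [Matrix.mulVec, dotProduct, Fin.sum_univ_two] using this
    have hdet := M.2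
    rw [Matrix.det_fin_two, h00, h10] at hdet
    refine ⟨M.1 0 1, ?_⟩
    ext i j
    fin_cases i <;> fin_cases j
    · exact h00
    · rfl
    · exact h10
    · show M.1 1 1 = 1
      linear_combination hdet
  -- the homomorphism
  have hunip : ∀ a b : 𝔽, (!![1, a; 0, 1] : Matrix (Fin 2) (Fin 2) 𝔽) * !![1, b; 0, 1]
      = !![1, a + b; 0, 1] := by
    intro a b
    rw [Matrix.mul_fin_two]
    ext i j
    fin_cases i <;> fin_cases j <;> simp [add_comm]
  have hdetu : ∀ a : 𝔽, (!![1, a; 0, 1] : Matrix (Fin 2) (Fin 2) 𝔽).det = 1 := by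
    intro a
    rw [Matrix.det_fin_two_of]
    ring
  let t : 𝔽 → Matrix.SpecialLinearGroup (Fin 2) 𝔽 := fun a => ⟨!![1, a; 0, 1], hdetu a⟩
  have ht : ∀ a b, t a * t b = t (a + b) := fun a b => Subtype.ext (hunip a b)
  have ht0 : t 0 = 1 := by
    apply Subtype.ext
    show (!![1, 0; 0, 1] : Matrix (Fin 2) (Fin 2) 𝔽) = 1
    exact Matrix.one_fin_two.symm
  have htn : ∀ a, (t a)⁻¹ = t (-a) := by
    intro a
    rw [inv_eq_iff_mul_eq_one, ht, add_neg_cancel, ht0]
  let A₀ : AddSubgroup 𝔽 :=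
    { carrier := {a | g⁻¹ * t a * g ∈ P}
      zero_mem' := by
        show g⁻¹ * t 0 * g ∈ P
        rw [ht0, mul_one, inv_mul_cancel]
        exact P.one_mem
      add_mem' := by
        intro a b ha hb
        show g⁻¹ * t (a + b) * g ∈ P
        have h := P.mul_mem ha hb
        have h2 : (g⁻¹ * t a * g) * (g⁻¹ * t b * g) = g⁻¹ * t (a + b) * g := by
          rw [← ht]
          group
        rw [← h2]
        exact h
      neg_mem' := by
        intro a ha
        show g⁻¹ * t (-a) * g ∈ P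
        have h := P.inv_mem ha
        have h2 : (g⁻¹ * t a * g)⁻¹ = g⁻¹ * t (-a) * g := by
          rw [← htn]
          group
        rw [← h2]
        exact h }
  have hiff : ∀ h : Matrix.SpecialLinearGroup (Fin 2) 𝔽,
      h ∈ P ↔ ∃ a ∈ A₀, (g * h * g⁻¹).1 = !![1, a; 0, 1] := by
    intro h
    constructor
    · intro hh
      obtain ⟨a, ha⟩ := key h hh
      refine ⟨a, ?_, ha⟩
      show g⁻¹ * t a * g ∈ P
      have h1 : g * h * g⁻¹ = t a := Subtype.ext ha
      rw [← h1]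
      have h2 : g⁻¹ * (g * h * g⁻¹) * g = h := by group
      rw [h2]
      exact hh
    · rintro ⟨a, ha, hM⟩
      have h1 : g * h * g⁻¹ = t a := Subtype.ext hM
      have h2 : h = g⁻¹ * t a * g := by
        rw [← h1]
        group
      rw [h2]
      exact ha
  refine ⟨g, A₀, ?_, hiff⟩
  intro hbot
  apply hP1
  rw [Subgroup.eq_bot_iff_forall]
  intro h hh
  obtain ⟨a, ha, hM⟩ := (hiff h).1 hh
  rw [hbot, AddSubgroup.mem_bot] at ha
  have h1 : g * h * g⁻¹ = t a := Subtype.ext hM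
  rw [ha, ht0] at h1
  have h2 : h = g⁻¹ * (g * h * g⁻¹) * g := by group
  rw [h2, h1]
  group

/-- lifting a p-subgroup along a surjection -/
theorem exists_lift_pgroup {p : ℕ} [Fact p.Prime] {S Q : Type} [Group S] [Finite S] [Group Q]
    (π : S →* Q) (hπ : Function.Surjective π) (P : Subgroup Q) (hP : IsPGroup p P)
    (hS : p ∣ Nat.card S) (hgen : Subgroup.normalClosure (P : Set Q) = ⊤) :
    ∃ P₁ : Subgroup S, IsPGroup p P₁ ∧ P₁ ≠ ⊥ ∧ P₁.map π = P := by
  have hfin : Finite Q := Finite.of_surjective π hπ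
  obtain ⟨R⟩ : Nonempty (Sylow p (P.comap π)) := Sylow.nonempty
  have hsurj : Function.Surjective (π.subgroupComap P) :=
    MonoidHom.subgroupComap_surjective_of_surjective π P hπ
  have htop : (R.mapSurjective hsurj : Subgroup P) = ⊤ := by
    have h1 : IsPGroup p (⊤ : Subgroup P) := hP.to_subgroup ⊤
    exact ((R.mapSurjective hsurj).is_maximal' h1 le_top).symm
  rw [Sylow.coe_mapSurjective] at htop
  refine ⟨(R : Subgroup (P.comap π)).map (P.comap π).subtype, R.2.map _, ?_, ?_⟩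
  · intro hbot
    by_cases hPb : P = ⊥
    · -- then `Q` is trivial
      have hQ : (⊤ : Subgroup Q) = ⊥ := by
        rw [← hgen, hPb, Subgroup.coe_bot, Subgroup.normalClosure_eq_bot_iff]
      have hcomap : P.comap π = ⊤ := by
        rw [eq_top_iff]
        intro x _
        rw [Subgroup.mem_comap, hPb, ← hQ]
        exact Subgroup.mem_top _
      have hRbot : (R : Subgroup (P.comap π)) = ⊥ := by
        rw [Subgroup.map_eq_bot_iff_of_injective _ (Subgroup.subtype_injective _)] at hbot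
        exact hbot
      have hc : Nat.card (P.comap π) = Nat.card S := by
        rw [hcomap]
        exact Nat.card_congr Subgroup.topEquiv.toEquiv
      have h2 := R.card_eq_multiplicity
      rw [hRbot, Subgroup.card_bot, hc] at h2
      have h3 : 0 < (Nat.card S).factorization p :=
        (Fact.out : p.Prime).factorization_pos_of_dvd Nat.card_pos.ne' hS
      have h4 : 1 < p ^ (Nat.card S).factorization p :=
        Nat.one_lt_pow h3.ne' (Fact.out : p.Prime).one_lt
      omega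
    · apply hPb
      have hRbot : (R : Subgroup (P.comap π)) = ⊥ := by
        rw [Subgroup.map_eq_bot_iff_of_injective _ (Subgroup.subtype_injective _)] at hbot
        exact hbot
      rw [hRbot, Subgroup.map_bot] at htop
      rw [Subgroup.eq_bot_iff_forall]
      intro x hx
      have : (⟨x, hx⟩ : P) ∈ (⊥ : Subgroup P) := by
        rw [htop]
        exact Subgroup.mem_top _
      rw [Subgroup.mem_bot] at this
      exact congrArg Subtype.val this
  · rw [Subgroup.map_map]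
    have h1 : π.comp (P.comap π).subtype = P.subtype.comp (π.subgroupComap P) := by
      ext x
      rfl
    rw [h1, ← Subgroup.map_map, htop, ← MonoidHom.range_eq_map, Subgroup.range_subtype]

end Pool.Agent.Helper54.SL
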